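import Mathlib

/-!
# Inertia of real symmetric matrices: lower bounds by definite subspaces
-/

set_option autoImplicit false

open scoped Matrix

namespace Pool.Agent.R54.IN

variable {V : Type*} [Fintype V] [DecidableEq V]

theorem card_filter_roots {A : Matrix V V ℝ} (hA : A.IsHermitian) (p : ℝ → Prop)
    [DecidablePred p] : (A.charpoly.roots.filter p).card =
      (Finset.univ.filter (fun i => p (hA.eigenvalues i))).card := by
  rw [hA.roots_charpoly_eq_eigenvalues, Multiset.filter_map, Multiset.card_map]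
  rfl

/-- the quadratic form in coordinates of the eigenvector basis -/
theorem quad_eigen {A : Matrix V V ℝ} (hA : A.IsHermitian) (w : V → ℝ) :
    w ⬝ᵥ (A *ᵥ w) = ∑ i, hA.eigenvalues i *
      ((star (hA.eigenvectorUnitary : Matrix V V ℝ)) *ᵥ w) i ^ 2 := by
  set U : Matrix V V ℝ := (hA.eigenvectorUnitary : Matrix V V ℝ) with hU
  set y : V → ℝ := star U *ᵥ w with hy
  have hspec : A = U * Matrix.diagonal (RCLike.ofReal ∘ hA.eigenvalues : V → ℝ) * star U := by
    conv_lhs => rw [hA.spectral_theorem, Unitary.conjStarAlgAut_apply]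
  have hT : star U = Uᵀ := by
    rw [Matrix.star_eq_conjTranspose, Matrix.conjTranspose_eq_transpose_of_trivial]
  conv_lhs => rw [hspec]
  rw [← Matrix.mulVec_mulVec, ← Matrix.mulVec_mulVec, ← hy, Matrix.dotProduct_mulVec,
    ← Matrix.mulVec_transpose, ← hT, ← hy]
  simp only [dotProduct, Matrix.mulVec_diagonal, Function.comp_apply, RCLike.ofReal_real_eq_id,
    id_eq]
  refine Finset.sum_congr rfl fun i _ => ?_
  ring

theorem coord_inj {A : Matrix V V ℝ} (hA : A.IsHermitian) (w : V → ℝ)
    (h : (star (hA.eigenvectorUnitary : Matrix V V ℝ)) *ᵥ w = 0) : w = 0 := by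
  set U : Matrix V V ℝ := (hA.eigenvectorUnitary : Matrix V V ℝ) with hU
  have hUU' : U * star U = 1 := Unitary.coe_mul_star_self _
  have : U *ᵥ (star U *ᵥ w) = w := by rw [Matrix.mulVec_mulVec, hUU', Matrix.one_mulVec]
  rw [← this, h, Matrix.mulVec_zero]

/-- A subspace on which the form is definite of sign `ε` has dimension at most the number of
eigenvalues of this sign. -/
theorem finrank_le {A : Matrix V V ℝ} (hA : A.IsHermitian) (W : Submodule ℝ (V → ℝ)) (ε : ℝ)
    (hW : ∀ x ∈ W, x ≠ 0 → 0 < ε * (x ⬝ᵥ (A *ᵥ x))) :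
    Module.finrank ℝ W ≤ (Finset.univ.filter (fun i => 0 < ε * hA.eigenvalues i)).card := by
  by_contra hcon
  push Not at hcon
  set U : Matrix V V ℝ := (hA.eigenvectorUnitary : Matrix V V ℝ) with hU
  set I : Finset V := Finset.univ.filter (fun i => 0 < ε * hA.eigenvalues i) with hI
  let f : W →ₗ[ℝ] ({i // i ∈ I} → ℝ) :=
    (LinearMap.funLeft ℝ ℝ (fun i : {i // i ∈ I} => i.1)) ∘ₗ (Matrix.mulVecLin (star U)) ∘ₗ
      W.subtype
  have hker : LinearMap.ker f ≠ ⊥ := by
    apply LinearMap.ker_ne_bot_of_finrank_lt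
    simpa using hcon
  obtain ⟨z, hz, hz0⟩ := (Submodule.ne_bot_iff _).1 hker
  have hw0 : (z : V → ℝ) ≠ 0 := fun h => hz0 (Subtype.ext h)
  have hpos := hW z z.2 hw0
  rw [quad_eigen hA, Finset.mul_sum] at hpos
  refine absurd hpos (not_lt.2 (Finset.sum_nonpos fun i _ => ?_))
  by_cases hi : i ∈ I
  · have h1 : f z = 0 := hz
    have h2 := congrFun h1 ⟨i, hi⟩
    have h3 : (star U *ᵥ (z : V → ℝ)) i = 0 := by
      simpa [f, LinearMap.funLeft_apply] using h2
    rw [h3]; simp
  · have h4 : ¬ 0 < ε * hA.eigenvalues i := by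
      simpa [hI] using hi
    rw [← mul_assoc]
    exact mul_nonpos_of_nonpos_of_nonneg (not_lt.1 h4) (sq_nonneg _)

/-- number of positive eigenvalues, with multiplicity -/
noncomputable def posC (A : Matrix V V ℝ) : ℕ := (A.charpoly.roots.filter (fun t => 0 < t)).card

/-- number of negative eigenvalues, with multiplicity -/
noncomputable def negC (A : Matrix V V ℝ) : ℕ := (A.charpoly.roots.filter (fun t => t < 0)).card

theorem pos_neg_le {A : Matrix V V ℝ} (hA : A.IsHermitian) :
    posC A + negC A ≤ Fintype.card V := by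
  unfold posC negC
  rw [card_filter_roots hA, card_filter_roots hA, ← Finset.card_union_of_disjoint]
  · exact Finset.card_le_univ _
  · rw [Finset.disjoint_filter]
    intro i _ h
    exact not_lt.2 h.le

theorem le_posC {A : Matrix V V ℝ} (hA : A.IsHermitian) (W : Submodule ℝ (V → ℝ))
    (hW : ∀ x ∈ W, x ≠ 0 → 0 < x ⬝ᵥ (A *ᵥ x)) : Module.finrank ℝ W ≤ posC A := by
  have := finrank_le hA W 1 (by simpa using hW)
  unfold posC
  rw [card_filter_roots hA]
  simpa using this

theorem le_negC {A : Matrix V V ℝ} (hA : A.IsHermitian) (W : Submodule ℝ (V → ℝ))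
    (hW : ∀ x ∈ W, x ≠ 0 → x ⬝ᵥ (A *ᵥ x) < 0) : Module.finrank ℝ W ≤ negC A := by
  have := finrank_le hA W (-1) (by
    intro x hx hx0
    have := hW x hx hx0
    linarith)
  unfold negC
  rw [card_filter_roots hA]
  refine this.trans (Finset.card_le_card ?_)
  intro i
  simp

/-- If a positive definite and a negative definite subspace have complementary dimensions, they
compute the inertia. -/
theorem inertia_eq {A : Matrix V V ℝ} (hA : A.IsHermitian) (P N : Submodule ℝ (V → ℝ))
    (hP : ∀ x ∈ P, x ≠ 0 → 0 < x ⬝ᵥ (A *ᵥ x)) (hN : ∀ x ∈ N, x ≠ 0 → x ⬝ᵥ (A *ᵥ x) < 0)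
    (h : Module.finrank ℝ P + Module.finrank ℝ N = Fintype.card V) :
    posC A = Module.finrank ℝ P ∧ negC A = Module.finrank ℝ N := by
  have h1 := le_posC hA P hP
  have h2 := le_negC hA N hN
  have h3 := pos_neg_le hA
  omega

/-- Existence of complementary definite subspaces of a nonsingular symmetric matrix. -/
theorem exists_spaces {A : Matrix V V ℝ} (hA : A.IsHermitian) (hdet : A.det ≠ 0) :
    ∃ P N : Submodule ℝ (V → ℝ),
      (∀ x ∈ P, x ≠ 0 → 0 < x ⬝ᵥ (A *ᵥ x)) ∧ (∀ x ∈ N, x ≠ 0 → x ⬝ᵥ (A *ᵥ x) < 0) ∧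
      Module.finrank ℝ P + Module.finrank ℝ N = Fintype.card V := by
  have hne : ∀ i, hA.eigenvalues i ≠ 0 := by
    intro i hi
    apply hdet
    rw [hA.det_eq_prod_eigenvalues]
    exact Finset.prod_eq_zero (Finset.mem_univ i) (by simpa using hi)
  set U : Matrix V V ℝ := (hA.eigenvectorUnitary : Matrix V V ℝ) with hU
  have key : ∀ ε : ℝ, ε = 1 ∨ ε = -1 → ∃ P : Submodule ℝ (V → ℝ),
      (∀ x ∈ P, x ≠ 0 → 0 < ε * (x ⬝ᵥ (A *ᵥ x))) ∧
      (Finset.univ.filter (fun i => 0 < ε * hA.eigenvalues i)).card ≤ Module.finrank ℝ P := by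
    intro ε hε
    set I : Finset V := Finset.univ.filter (fun i => ¬ 0 < ε * hA.eigenvalues i) with hI
    let f : (V → ℝ) →ₗ[ℝ] ({i // i ∈ I} → ℝ) :=
      (LinearMap.funLeft ℝ ℝ (fun i : {i // i ∈ I} => i.1)) ∘ₗ (Matrix.mulVecLin (star U))
    refine ⟨LinearMap.ker f, ?_, ?_⟩
    · intro x hx hx0
      have h0 : ∀ i, ¬ 0 < ε * hA.eigenvalues i → (star U *ᵥ x) i = 0 := by
        intro i hi
        have hiI : i ∈ I := by simp only [hI, Finset.mem_filter, Finset.mem_univ, true_and]; exact hi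
        have h1 : f x = 0 := hx
        have := congrFun h1 ⟨i, hiI⟩
        simpa [f, LinearMap.funLeft_apply] using this
      rw [quad_eigen hA, Finset.mul_sum]
      have hyne : star U *ᵥ x ≠ 0 := fun h => hx0 (coord_inj hA x h)
      obtain ⟨i, hi⟩ := Function.ne_iff.1 hyne
      have hi' : (star U *ᵥ x) i ≠ 0 := hi
      refine Finset.sum_pos' (fun j _ => ?_) ⟨i, Finset.mem_univ _, ?_⟩
      · by_cases h : 0 < ε * hA.eigenvalues j
        · rw [← mul_assoc]; exact mul_nonneg h.le (sq_nonneg _)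
        · rw [h0 j h]; simp
      · by_cases h : 0 < ε * hA.eigenvalues i
        · rw [← mul_assoc]; positivity
        · exact absurd (h0 i h) hi'
    · have h1 := LinearMap.finrank_range_add_finrank_ker f
      have h2 : Module.finrank ℝ (LinearMap.range f) ≤ I.card := by
        refine (Submodule.finrank_le _).trans ?_
        simp
      have h3 : (Finset.univ.filter (fun i => 0 < ε * hA.eigenvalues i)).card + I.card =
          Fintype.card V := by
        rw [hI, Finset.card_filter_add_card_filter_not, Finset.card_univ]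
      rw [Module.finrank_fintype_fun_eq_card] at h1
      omega
  obtain ⟨P, hP, hP'⟩ := key 1 (Or.inl rfl)
  obtain ⟨N, hN, hN'⟩ := key (-1) (Or.inr rfl)
  have hP2 : ∀ x ∈ P, x ≠ 0 → 0 < x ⬝ᵥ (A *ᵥ x) := by simpa using hP
  have hN2 : ∀ x ∈ N, x ≠ 0 → x ⬝ᵥ (A *ᵥ x) < 0 := by
    intro x hx hx0
    have := hN x hx hx0
    linarith
  refine ⟨P, N, hP2, hN2, ?_⟩
  have h1 := le_posC hA P hP2
  have h2 := le_negC hA N hN2
  have h3 := pos_neg_le hA
  have h4 : (Finset.univ.filter (fun i => 0 < (1:ℝ) * hA.eigenvalues i)).card +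
      (Finset.univ.filter (fun i => 0 < (-1:ℝ) * hA.eigenvalues i)).card = Fintype.card V := by
    rw [← Finset.card_union_of_disjoint, ← Finset.card_univ]
    · congr 1
      ext i
      simp only [one_mul, Finset.mem_union, Finset.mem_filter, Finset.mem_univ, true_and, iff_true]
      rcases lt_or_gt_of_ne (hne i) with h | h
      · right; linarith
      · left; exact h
    · rw [Finset.disjoint_filter]
      intro i _ h h'
      linarith
  omega

end Pool.Agent.R54.IN
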