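import Pool.Agent.R54.IN.Basic

/-!
# Principal minors and Schur complements
-/

set_option autoImplicit false

open scoped Matrix

namespace Pool.Agent.R54.IN

variable {V : Type*} [Fintype V] [DecidableEq V]

/-- principal minor on `S` -/
noncomputable def D (A : Matrix V V ℝ) (S : Finset V) : ℝ :=
  (A.submatrix (Subtype.val : S → V) Subtype.val).det

omit [Fintype V] in
theorem D_eq {α : Type*} [Fintype α] [DecidableEq α] (A : Matrix V V ℝ) (S : Finset V)
    (f : α → V) (hf : Function.Injective f) (hS : ∀ v, v ∈ S ↔ ∃ a, f a = v) :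
    D A S = (A.submatrix f f).det := by
  have hmem : ∀ a, f a ∈ S := fun a => (hS _).2 ⟨a, rfl⟩
  let e : α ≃ S := Equiv.ofBijective (fun a => ⟨f a, hmem a⟩) (by
    constructor
    · intro a b h
      exact hf (congrArg Subtype.val h)
    · rintro ⟨v, hv⟩
      obtain ⟨a, ha⟩ := (hS v).1 hv
      exact ⟨a, Subtype.ext ha⟩)
  unfold D
  rw [← Matrix.det_submatrix_equiv_self e, Matrix.submatrix_submatrix]
  rfl

theorem D_univ (A : Matrix V V ℝ) : D A Finset.univ = A.det := by
  rw [D_eq A Finset.univ id Function.injective_id (fun v => by simp)]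
  simp

omit [Fintype V] in
/-- Two matrices that agree on `S × S` have the same minor. -/
theorem D_congr {A B : Matrix V V ℝ} {S : Finset V} (h : ∀ i ∈ S, ∀ j ∈ S, A i j = B i j) :
    D A S = D B S := by
  unfold D
  congr 1
  ext i j
  exact h _ i.2 _ j.2

theorem sum_dite_mem (T : Finset V) (F : T → ℝ) :
    ∑ j, (if h : j ∈ T then F ⟨j, h⟩ else 0) = ∑ j : T, F j := by
  rw [← Finset.sum_subset (Finset.subset_univ T) (fun x _ hx => by simp [hx]),
    ← Finset.sum_attach T, Finset.univ_eq_attach]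
  exact Finset.sum_congr rfl fun j _ => by simp

/-- Schur complement with one extra index. -/
theorem schur1 (A : Matrix V V ℝ) (T : Finset V) (w : V) (hw : w ∉ T) (hT : D A T ≠ 0) :
    ∃ ξ : V → ℝ, ξ w = 1 ∧ (∀ i, i ∉ insert w T → ξ i = 0) ∧ (∀ i ∈ T, (A *ᵥ ξ) i = 0) ∧
      D A (insert w T) = D A T * (A *ᵥ ξ) w := by
  set Q : Matrix T T ℝ := A.submatrix Subtype.val Subtype.val with hQ
  have hdet : IsUnit Q.det := by
    rw [isUnit_iff_ne_zero]; exact hT
  let _ : Invertible Q := Q.invertibleOfIsUnitDet hdet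
  let b : T → ℝ := fun i => A i w
  let z : T → ℝ := -(⅟Q *ᵥ b)
  have hQz : Q *ᵥ z = -b := by
    simp only [z]
    rw [Matrix.mulVec_neg, Matrix.mulVec_mulVec, mul_invOf_self, Matrix.one_mulVec]
  let ξ : V → ℝ := fun i => if i = w then 1 else if h : i ∈ T then z ⟨i, h⟩ else 0
  have hξ : ∀ i, (A *ᵥ ξ) i = A i w + ∑ j : T, A i j * z j := by
    intro i
    have h1 : (A *ᵥ ξ) i = ∑ j, A i j * ξ j := rfl
    rw [h1]
    have h2 : ∀ j, A i j * ξ j = (if j = w then A i w else 0) +
        (if h : j ∈ T then (fun j : T => A i j * z j) ⟨j, h⟩ else 0) := by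
      intro j
      by_cases hj : j = w
      · subst hj
        simp [ξ, hw]
      · by_cases hjT : j ∈ T
        · simp [ξ, hj, hjT]
        · simp [ξ, hj, hjT]
    rw [Finset.sum_congr rfl fun j _ => h2 j, Finset.sum_add_distrib]
    refine congrArg₂ (· + ·) ?_ (sum_dite_mem T (fun j : T => A i j * z j))
    simp
  refine ⟨ξ, by simp [ξ], ?_, ?_, ?_⟩
  · intro i hi
    simp only [Finset.mem_insert, not_or] at hi
    simp [ξ, hi.1, hi.2]
  · intro i hi
    rw [hξ]
    have := congrFun hQz ⟨i, hi⟩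
    have h3 : (Q *ᵥ z) ⟨i, hi⟩ = ∑ j : T, A i j * z j := rfl
    rw [h3] at this
    rw [this]
    simp [b]
  · let f : Unit ⊕ T → V := Sum.elim (fun _ => w) Subtype.val
    have hf : Function.Injective f := by
      rintro (⟨⟩ | a) (⟨⟩ | b) h
      · rfl
      · exact absurd (show w = b from h) (fun h' => hw (h' ▸ b.2))
      · exact absurd (show (a : V) = w from h) (fun h' => hw (h' ▸ a.2))
      · exact congrArg Sum.inr (Subtype.ext h)
    rw [D_eq A (insert w T) f hf (by
      intro v
      simp only [Finset.mem_insert, Sum.exists]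
      constructor
      · rintro (rfl | h)
        · exact Or.inl ⟨(), rfl⟩
        · exact Or.inr ⟨⟨v, h⟩, rfl⟩
      · rintro (⟨a, rfl⟩ | ⟨a, rfl⟩)
        · exact Or.inl rfl
        · exact Or.inr a.2)]
    have hblk : A.submatrix f f = Matrix.fromBlocks (Matrix.of fun _ _ : Unit => A w w)
        (Matrix.of fun (_ : Unit) (j : T) => A w j) (Matrix.of fun (i : T) (_ : Unit) => A i w) Q := by
      ext i j
      rcases i with (⟨⟩ | i) <;> rcases j with (⟨⟩ | j) <;> rfl
    rw [hblk, Matrix.det_fromBlocks₂₂]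
    have hD : D A T = Q.det := rfl
    rw [hD, hξ]
    congr 1
    rw [Matrix.det_unique]
    have h4 : ((Matrix.of fun (_ : Unit) (j : T) => A w j) * ⅟Q *
        (Matrix.of fun (i : T) (_ : Unit) => A i w)) default default =
        -∑ j : T, A w j * z j := by
      rw [Matrix.mul_assoc, Matrix.mul_apply]
      rw [← Finset.sum_neg_distrib]
      refine Finset.sum_congr rfl fun j _ => ?_
      have h5 : z j = -(⅟Q *ᵥ b) j := rfl
      rw [h5]
      have h6 : (⅟Q * (Matrix.of fun (i : T) (_ : Unit) => A i w)) j default = (⅟Q *ᵥ b) j := rfl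
      rw [h6]
      simp
    rw [Matrix.sub_apply, h4]
    simp

/-- Schur complement with two extra indices and a free entry. -/
theorem schur2 (A : Matrix V V ℝ) (hA : A.IsSymm) (R : Finset V) (u v : V) (hu : u ∉ R)
    (hv : v ∉ R) (huv : u ≠ v) (hR : D A R ≠ 0) :
    ∃ ρ : ℝ, ∀ t : ℝ, D (A + t • (Matrix.single u v 1 + Matrix.single v u 1))
        (insert u (insert v R)) * D A R =
      D A (insert u R) * D A (insert v R) - (ρ + t * D A R) ^ 2 := by
  set Q : Matrix R R ℝ := A.submatrix Subtype.val Subtype.val with hQ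
  have hdet : IsUnit Q.det := by
    rw [isUnit_iff_ne_zero]; exact hR
  let _ : Invertible Q := Q.invertibleOfIsUnitDet hdet
  let p : V → V → ℝ := fun x y => A x y - ∑ i : R, A x i * (⅟Q *ᵥ fun j : R => A j y) i
  have hD : D A R = Q.det := rfl
  have h1 : ∀ x, x ∉ R → D A (insert x R) = Q.det * p x x := by
    intro x hx
    let f : Unit ⊕ R → V := Sum.elim (fun _ => x) Subtype.val
    have hf : Function.Injective f := by
      rintro (⟨⟩ | a) (⟨⟩ | b) h
      · rfl
      · exact absurd (show x = b from h) (fun h' => hx (h' ▸ b.2))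
      · exact absurd (show (a : V) = x from h) (fun h' => hx (h' ▸ a.2))
      · exact congrArg Sum.inr (Subtype.ext h)
    rw [D_eq A (insert x R) f hf (by
      intro v
      simp only [Finset.mem_insert, Sum.exists]
      constructor
      · rintro (rfl | h)
        · exact Or.inl ⟨(), rfl⟩
        · exact Or.inr ⟨⟨v, h⟩, rfl⟩
      · rintro (⟨a, rfl⟩ | ⟨a, rfl⟩)
        · exact Or.inl rfl
        · exact Or.inr a.2)]
    have hblk : A.submatrix f f = Matrix.fromBlocks (Matrix.of fun _ _ : Unit => A x x)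
        (Matrix.of fun (_ : Unit) (j : R) => A x j) (Matrix.of fun (i : R) (_ : Unit) => A i x) Q := by
      ext i j
      rcases i with (⟨⟩ | i) <;> rcases j with (⟨⟩ | j) <;> rfl
    rw [hblk, Matrix.det_fromBlocks₂₂]
    congr 1
    rw [Matrix.det_unique, Matrix.sub_apply, Matrix.mul_assoc, Matrix.mul_apply]
    rfl
  have hsym : p v u = p u v := by
    have hQs : (⅟Q)ᵀ = ⅟Q := by
      have hQt : Qᵀ = Q := by
        ext i j
        exact hA.apply i j
      rw [Matrix.invOf_eq_nonsing_inv, Matrix.transpose_nonsing_inv, hQt]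
    simp only [p]
    rw [hA.apply u v]
    congr 1
    have e1 : ∑ i : R, A v i * (⅟Q *ᵥ fun j : R => A j u) i =
        (fun i : R => A v i) ⬝ᵥ (⅟Q *ᵥ fun j : R => A j u) := rfl
    have e2 : ∑ i : R, A u i * (⅟Q *ᵥ fun j : R => A j v) i =
        (fun i : R => A u i) ⬝ᵥ (⅟Q *ᵥ fun j : R => A j v) := rfl
    rw [e1, e2, Matrix.dotProduct_mulVec, ← Matrix.mulVec_transpose, hQs, dotProduct_comm]
    congr 1
    · funext i; exact hA.apply u i.1
    · congr 1
      funext i; exact hA.apply i.1 v
  refine ⟨Q.det * p u v, fun t => ?_⟩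
  set B : Matrix V V ℝ := A + t • (Matrix.single u v 1 + Matrix.single v u 1) with hB
  have hBuv : B u v = A u v + t := by
    simp [hB, huv, huv.symm]
  have hBvu : B v u = A v u + t := by
    simp [hB, huv, huv.symm]
  have hBo : ∀ i j, ¬ (i = u ∧ j = v) → ¬ (i = v ∧ j = u) → B i j = A i j := by
    intro i j h h'
    have e1 : ¬ (u = i ∧ v = j) := fun e => h ⟨e.1.symm, e.2.symm⟩
    have e2 : ¬ (v = i ∧ u = j) := fun e => h' ⟨e.1.symm, e.2.symm⟩
    simp [hB, e1, e2]
  let f : Fin 2 ⊕ R → V := Sum.elim ![u, v] Subtype.val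
  have hf : Function.Injective f := by
    rintro (a | a) (b | b) h
    · fin_cases a <;> fin_cases b
      · rfl
      · exact absurd h huv
      · exact absurd h huv.symm
      · rfl
    · exfalso
      fin_cases a
      · exact hu ((show u = b from h) ▸ b.2)
      · exact hv ((show v = b from h) ▸ b.2)
    · exfalso
      fin_cases b
      · exact hu ((show (a : V) = u from h) ▸ a.2)
      · exact hv ((show (a : V) = v from h) ▸ a.2)
    · exact congrArg Sum.inr (Subtype.ext h)
  have hDB : D B (insert u (insert v R)) = (B.submatrix f f).det := by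
    refine D_eq B _ f hf ?_
    intro x
    simp only [Finset.mem_insert, Sum.exists]
    constructor
    · rintro (rfl | rfl | h)
      · exact Or.inl ⟨0, rfl⟩
      · exact Or.inl ⟨1, rfl⟩
      · exact Or.inr ⟨⟨x, h⟩, rfl⟩
    · rintro (⟨a, rfl⟩ | ⟨a, rfl⟩)
      · fin_cases a
        · exact Or.inl rfl
        · exact Or.inr (Or.inl rfl)
      · exact Or.inr (Or.inr a.2)
  have hblk : B.submatrix f f = Matrix.fromBlocks (!![A u u, A u v + t; A v u + t, A v v])
      (Matrix.of fun (i : Fin 2) (j : R) => A (![u, v] i) j)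
      (Matrix.of fun (i : R) (j : Fin 2) => A i (![u, v] j)) Q := by
    ext i j
    rcases i with (i | i) <;> rcases j with (j | j)
    · fin_cases i <;> fin_cases j
      · exact hBo u u (fun h => huv h.2) (fun h => huv h.1)
      · exact hBuv
      · exact hBvu
      · exact hBo v v (fun h => huv h.1.symm) (fun h => huv h.2.symm)
    · fin_cases i
      · exact hBo u j (fun h => hv (h.2 ▸ j.2)) (fun h => huv h.1)
      · exact hBo v j (fun h => huv h.1.symm) (fun h => hu (h.2 ▸ j.2))
    · fin_cases j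
      · exact hBo i u (fun h => hu (h.1 ▸ i.2)) (fun h => hv (h.1 ▸ i.2))
      · exact hBo i v (fun h => hu (h.1 ▸ i.2)) (fun h => hv (h.1 ▸ i.2))
    · exact hBo i j (fun h => hu (h.1 ▸ i.2)) (fun h => hv (h.1 ▸ i.2))
  have hent : ∀ i j : Fin 2, ((Matrix.of fun (i : Fin 2) (j : R) => A (![u, v] i) j) * ⅟Q *
      (Matrix.of fun (i : R) (j : Fin 2) => A i (![u, v] j))) i j =
      A (![u, v] i) (![u, v] j) - p (![u, v] i) (![u, v] j) := by
    intro i j
    rw [Matrix.mul_assoc, Matrix.mul_apply]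
    simp only [p, sub_sub_cancel]
    rfl
  rw [hDB, hblk, Matrix.det_fromBlocks₂₂, Matrix.det_fin_two]
  simp only [Matrix.sub_apply, hent]
  rw [h1 u hu, h1 v hv, hD]
  simp only [Matrix.of_apply, Matrix.cons_val_zero, Matrix.cons_val_one, Matrix.cons_val',
    Matrix.cons_val_fin_one, Matrix.empty_val']
  rw [hsym]
  ring

end Pool.Agent.R54.IN
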