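import Mathlib

/-!
# The combinatorial part: signs of principal minors and colourings
-/

set_option autoImplicit false

namespace Pool.Agent.R54.IN

variable {V : Type*} [DecidableEq V]

/-- abstract data: `adj` = unknown entries, `τ` = principal minors -/
structure Sys (V : Type*) [DecidableEq V] where
  adj : V → V → Prop
  good : Finset V → Prop
  τ : Finset V → ℝ
  ind : Finset V → ℕ → Prop
  adj_symm : ∀ u v, adj u v → adj v u
  adj_irr : ∀ u, ¬ adj u u
  nz : ∀ S, good S → τ S ≠ 0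
  h2 : ∀ S u v, good S → u ∈ S → v ∈ S → adj u v → good (S.erase u) ∧
    good ((S.erase u).erase v) ∧ τ ((S.erase u).erase v) * τ S < 0 ∧
    τ (S.erase u) * τ (S.erase v) < 0
  h3 : ∀ R y z, y ∉ R → z ∉ R → y ≠ z → τ R ≠ 0 →
    ∃ ρ : ℝ, τ (insert y (insert z R)) * τ R = τ (insert y R) * τ (insert z R) - ρ ^ 2
  i0 : ∀ S, good S → ∃ p, p ≤ S.card ∧ ind S p
  i1 : ∀ T w p, w ∉ T → τ T ≠ 0 → τ (insert w T) ≠ 0 → ind T p →
    ind (insert w T) (p + if 0 < τ (insert w T) * τ T then 1 else 0)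

theorem neg_iff' {x y : ℝ} (hx : x ≠ 0) (hy : y ≠ 0) : x * y < 0 ↔ ¬ ((0 < x) ↔ (0 < y)) := by
  rcases lt_or_gt_of_ne hx with h | h <;> rcases lt_or_gt_of_ne hy with h' | h'
  · have : 0 < x * y := mul_pos_of_neg_of_neg h h'
    simp [not_lt.2 this.le, not_lt.2 h.le, not_lt.2 h'.le]
  · have : x * y < 0 := mul_neg_of_neg_of_pos h h'
    simp [this, not_lt.2 h.le, h']
  · have : x * y < 0 := mul_neg_of_pos_of_neg h h'
    simp [this, h, not_lt.2 h'.le]
  · have : 0 < x * y := mul_pos h h'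
    simp [not_lt.2 this.le, h, h']

theorem pos_iff' {x y : ℝ} (hx : x ≠ 0) (hy : y ≠ 0) : 0 < x * y ↔ ((0 < x) ↔ (0 < y)) := by
  have h := neg_iff' hx hy
  have h0 : x * y ≠ 0 := mul_ne_zero hx hy
  constructor
  · intro hp
    by_contra hc
    exact absurd (h.2 hc) (not_lt.2 hp.le)
  · intro hc
    rcases lt_or_gt_of_ne h0 with h1 | h1
    · exact absurd hc (h.1 h1)
    · exact h1

namespace Sys

variable (X : Sys V)

theorem ne0_left {a b : ℝ} (h : a * b < 0) : a ≠ 0 := by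
  rintro rfl; simp at h

theorem ne0_right {a b : ℝ} (h : a * b < 0) : b ≠ 0 := by
  rintro rfl; simp at h

theorem l3 {r e c : Prop} (f1 : ¬ (e ↔ c)) (f2 : ¬ (r ↔ e)) : r ↔ c := by
  by_cases e <;> by_cases c <;> by_cases r <;> simp_all

theorem l2 {p d : Prop} (f : ¬ (p ↔ d)) : p ↔ ¬ d := by
  by_cases p <;> by_cases d <;> simp_all

theorem l4 {a b c d : Prop} (q1 : ¬ (¬ d ↔ ¬ a) → ¬ (b ↔ c)) (q2 : ¬ (¬ d ↔ a) → ¬ (¬ b ↔ c)) :
    (a ↔ b) ↔ (c ↔ d) := by
  by_cases a <;> by_cases b <;> by_cases c <;> by_cases d <;> simp_all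

theorem logic1 {a b c d e r p q m g n : Prop} (f1 : ¬ (e ↔ c)) (f2 : ¬ (r ↔ e))
    (f3 : ¬ (p ↔ d)) (f4 : ¬ (q ↔ a)) (f5 : ¬ (m ↔ g)) (fwz : ¬ (a ↔ g)) (f6 : ¬ (b ↔ n))
    (q1 : ¬ (p ↔ q) → ¬ (b ↔ r)) (q2 : ¬ (p ↔ m) → ¬ (n ↔ r)) : (a ↔ b) ↔ (c ↔ d) := by
  have hr : r ↔ c := l3 f1 f2
  have hp : p ↔ ¬ d := l2 f3
  have hq : q ↔ ¬ a := l2 f4
  have hm : m ↔ a := l3 (fun h => fwz h.symm) f5
  have hn : n ↔ ¬ b := l2 (fun h => f6 h.symm)
  rw [hp, hq, hr] at q1
  rw [hp, hm, hn, hr] at q2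
  exact l4 q1 q2

theorem logic2 {a b c d e g : Prop} (f1 : ¬ (b ↔ e)) (f2 : ¬ (e ↔ c)) (f3 : ¬ (a ↔ g))
    (f4 : ¬ (d ↔ g)) : (a ↔ b) ↔ (c ↔ d) := by
  have h1 : b ↔ c := l3 f2 f1
  have h2 : a ↔ d := l3 (fun h => f4 h.symm) f3
  rw [h1, h2]
  exact ⟨fun h => h.symm, fun h => h.symm⟩

theorem logic3 {a b c d : Prop} (f1 : ¬ (b ↔ c)) (f2 : ¬ (a ↔ d)) : (a ↔ b) ↔ (c ↔ d) := by
  by_cases a <;> by_cases b <;> by_cases c <;> by_cases d <;> simp_all

theorem logic4 {s a b c : Prop} (h1 : s ↔ (c ↔ a)) (h2 : s ↔ (c ↔ b)) (f : ¬ (a ↔ b)) : False := by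
  by_cases a <;> by_cases b <;> by_cases c <;> by_cases s <;> simp_all

theorem logic5 {a b c : Prop} (f : ¬ (b ↔ c)) : ¬ ((c ↔ a) ∧ (a ↔ b)) ∧ ((c ↔ a) ∨ (a ↔ b)) := by
  by_cases a <;> by_cases b <;> by_cases c <;> simp_all

theorem logic6 {a b c d : Prop} (f1 : ¬ (b ↔ d)) (f3 : ¬ (a ↔ c)) : (b ↔ a) ↔ (d ↔ c) := by
  by_cases a <;> by_cases b <;> by_cases c <;> by_cases d <;> simp_all

/-- the sign of a vertex does not change when another vertex is removed -/
theorem stable {S : Finset V} (hS : X.good S) {v w y z : V} (hv : v ∈ S) (hw : w ∈ S)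
    (hy : y ∈ S) (hz : z ∈ S) (hvw : v ≠ w) (hyw : y ≠ w) (hvy : X.adj v y) (hwz : X.adj w z) :
    ((0 < X.τ (S.erase w)) ↔ (0 < X.τ ((S.erase w).erase v))) ↔
      ((0 < X.τ S) ↔ (0 < X.τ (S.erase v))) := by
  -- common neighbour
  have common : ∀ y : V, y ∈ S → X.adj v y → X.adj w y →
      (((0 < X.τ (S.erase w)) ↔ (0 < X.τ ((S.erase w).erase v))) ↔
      ((0 < X.τ S) ↔ (0 < X.τ (S.erase v)))) := by
    intro y hy hvy hwy
    have hyw : y ≠ w := by rintro rfl; exact X.adj_irr _ hwy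
    obtain ⟨g1, g2, f2, f3⟩ := X.h2 S w y hS hw hy hwy
    obtain ⟨-, -, -, f4⟩ := X.h2 S v y hS hv hy hvy
    obtain ⟨-, -, -, f1⟩ := X.h2 (S.erase w) v y g1 (Finset.mem_erase.2 ⟨hvw, hv⟩)
      (Finset.mem_erase.2 ⟨hyw, hy⟩) hvy
    rw [neg_iff' (ne0_left f1) (ne0_right f1)] at f1
    rw [neg_iff' (ne0_left f2) (ne0_right f2)] at f2
    rw [neg_iff' (ne0_left f3) (ne0_right f3)] at f3
    rw [neg_iff' (ne0_left f4) (ne0_right f4)] at f4
    exact logic2 f1 f2 f3 f4
  by_cases c1 : X.adj v w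
  · obtain ⟨-, -, f1, f2⟩ := X.h2 S w v hS hw hv (X.adj_symm _ _ c1)
    rw [neg_iff' (ne0_left f1) (ne0_right f1)] at f1
    rw [neg_iff' (ne0_left f2) (ne0_right f2)] at f2
    exact logic3 f1 f2
  by_cases c2 : X.adj w y
  · exact common y hy hvy c2
  by_cases c3 : X.adj v z
  · exact common z hz c3 hwz
  have hyv : y ≠ v := by rintro rfl; exact X.adj_irr _ hvy
  have hzw : z ≠ w := by rintro rfl; exact X.adj_irr _ hwz
  have hzv : z ≠ v := by rintro rfl; exact c1 (X.adj_symm _ _ hwz)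
  have hyz : y ≠ z := by rintro rfl; exact c2 hwz
  obtain ⟨gv, gvy, f1, -⟩ := X.h2 S v y hS hv hy hvy
  obtain ⟨gw, -, -, fwz⟩ := X.h2 S w z hS hw hz hwz
  obtain ⟨gz, -, -, -⟩ := X.h2 S z w hS hz hw (X.adj_symm _ _ hwz)
  -- R
  obtain ⟨-, gR, f2, -⟩ := X.h2 ((S.erase v).erase y) w z gvy
    (by simp [hvw.symm, hyw.symm, hw]) (by simp [hzv, hyz.symm, hz]) hwz
  obtain ⟨-, -, f3, f6⟩ := X.h2 (S.erase v) w z gv (by simp [hvw.symm, hw]) (by simp [hzv, hz]) hwz
  obtain ⟨-, -, f4, -⟩ := X.h2 (S.erase w) v y gw (by simp [hvw, hv]) (by simp [hyw, hy]) hvy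
  obtain ⟨-, -, f5, -⟩ := X.h2 (S.erase z) v y gz (by simp [hzv.symm, hv]) (by simp [hyz, hy]) hvy
  set R := (((S.erase v).erase y).erase w).erase z with hR
  have hR0 : X.τ R ≠ 0 := X.nz _ gR
  obtain ⟨ρ, h3⟩ := X.h3 R y z (by simp [hR]) (by simp [hR]) hyz hR0
  obtain ⟨ρ', h3'⟩ := X.h3 R y w (by simp [hR]) (by simp [hR]) hyw hR0
  have e1 : insert y R = ((S.erase v).erase w).erase z := by
    ext x; simp only [hR, Finset.mem_insert, Finset.mem_erase]
    constructor
    · rintro (rfl | h)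
      · exact ⟨hyz, hyw, hyv, hy⟩
      · exact ⟨h.1, h.2.1, h.2.2.2.1, h.2.2.2.2⟩
    · rintro ⟨a, b, c, d⟩
      by_cases hxy : x = y
      · exact Or.inl hxy
      · exact Or.inr ⟨a, b, hxy, c, d⟩
  have e2 : insert z R = ((S.erase w).erase v).erase y := by
    ext x; simp only [hR, Finset.mem_insert, Finset.mem_erase]
    constructor
    · rintro (rfl | h)
      · exact ⟨hyz.symm, hzv, hzw, hz⟩
      · exact ⟨h.2.2.1, h.2.2.2.1, h.2.1, h.2.2.2.2⟩
    · rintro ⟨a, b, c, d⟩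
      by_cases hxz : x = z
      · exact Or.inl hxz
      · exact Or.inr ⟨hxz, c, a, b, d⟩
  have e3 : insert w R = ((S.erase z).erase v).erase y := by
    ext x; simp only [hR, Finset.mem_insert, Finset.mem_erase]
    constructor
    · rintro (rfl | h)
      · exact ⟨hyw.symm, hvw.symm, hzw.symm, hw⟩
      · exact ⟨h.2.2.1, h.2.2.2.1, h.1, h.2.2.2.2⟩
    · rintro ⟨a, b, c, d⟩
      by_cases hxz : x = w
      · exact Or.inl hxz
      · exact Or.inr ⟨c, hxz, a, b, d⟩
  have e4 : insert y (insert z R) = (S.erase w).erase v := by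
    rw [e2]
    ext x; simp only [Finset.mem_insert, Finset.mem_erase]
    constructor
    · rintro (rfl | h)
      · exact ⟨hyv, hyw, hy⟩
      · exact h.2
    · intro h
      by_cases hxy : x = y
      · exact Or.inl hxy
      · exact Or.inr ⟨hxy, h⟩
  have e5 : insert y (insert w R) = (S.erase v).erase z := by
    rw [e3]
    ext x; simp only [Finset.mem_insert, Finset.mem_erase]
    constructor
    · rintro (rfl | h)
      · exact ⟨hyz, hyv, hy⟩
      · exact ⟨h.2.2.1, h.2.1, h.2.2.2⟩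
    · intro h
      by_cases hxy : x = y
      · exact Or.inl hxy
      · exact Or.inr ⟨hxy, h.2.1, h.1, h.2.2⟩
  have e6 : (S.erase v).erase w = (S.erase w).erase v := Finset.erase_right_comm
  rw [← e1] at f3
  rw [← e2] at f4
  rw [← e3] at f5
  rw [e6] at f6
  rw [e4] at h3
  rw [e5] at h3'
  have n1 := ne0_left f3
  have n2 := ne0_left f4
  have n3 := ne0_left f5
  have n4 := ne0_left f6
  have n5 := ne0_right f6
  have q1 : X.τ (insert y R) * X.τ (insert z R) < 0 → X.τ ((S.erase w).erase v) * X.τ R < 0 := by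
    intro h; rw [h3]; nlinarith [sq_nonneg ρ]
  have q2 : X.τ (insert y R) * X.τ (insert w R) < 0 → X.τ ((S.erase v).erase z) * X.τ R < 0 := by
    intro h; rw [h3']; nlinarith [sq_nonneg ρ']
  rw [neg_iff' n1 n2, neg_iff' n4 hR0] at q1
  rw [neg_iff' n1 n3, neg_iff' n5 hR0] at q2
  rw [neg_iff' (ne0_left f1) (ne0_right f1)] at f1
  rw [neg_iff' (ne0_left f2) (ne0_right f2)] at f2
  rw [neg_iff' (ne0_left f3) (ne0_right f3)] at f3
  rw [neg_iff' (ne0_left f4) (ne0_right f4)] at f4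
  rw [neg_iff' (ne0_left f5) (ne0_right f5)] at f5
  rw [neg_iff' (ne0_left f6) (ne0_right f6)] at f6
  rw [neg_iff' (ne0_left fwz) (ne0_right fwz)] at fwz
  exact logic1 f1 f2 f3 f4 f5 fwz f6 q1 q2

/-- existence of the colouring -/
theorem exists_coloring (n : ℕ) : ∀ S : Finset V, S.card = n → X.good S →
    ∃ (s : V → Bool) (p : ℕ), X.ind S p ∧ (∀ u ∈ S, ∀ v ∈ S, X.adj u v → s u ≠ s v) ∧
      (S.filter (fun v => s v = true)).card = p ∧
      ∀ v ∈ S, (∃ y ∈ S, X.adj v y) → (s v = true ↔ 0 < X.τ S * X.τ (S.erase v)) := by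
  induction n using Nat.strong_induction_on with
  | _ n ih =>
  intro S hn hS
  classical
  -- properness follows from the canonical property
  have proper_of : ∀ s : V → Bool,
      (∀ v ∈ S, (∃ y ∈ S, X.adj v y) → (s v = true ↔ 0 < X.τ S * X.τ (S.erase v))) →
      ∀ u ∈ S, ∀ v ∈ S, X.adj u v → s u ≠ s v := by
    intro s hs u hu v hv huv
    have h1 := hs u hu ⟨v, hv, huv⟩
    have h2 := hs v hv ⟨u, hu, X.adj_symm _ _ huv⟩
    obtain ⟨-, -, -, f⟩ := X.h2 S u v hS hu hv huv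
    have hS0 := X.nz S hS
    rw [pos_iff' hS0 (ne0_left f)] at h1
    rw [pos_iff' hS0 (ne0_right f)] at h2
    rw [neg_iff' (ne0_left f) (ne0_right f)] at f
    intro he
    rw [he] at h1
    exact logic4 h1 h2 f
  by_cases c1 : ∃ w ∈ S, (∃ y ∈ S, X.adj w y) ∧
      ∀ y ∈ S, X.adj w y → ∃ z ∈ S, z ≠ w ∧ X.adj y z
  · obtain ⟨w, hw, ⟨y, hy, hwy⟩, hnb⟩ := c1
    obtain ⟨gw, -, -, fw⟩ := X.h2 S w y hS hw hy hwy
    have hw0 := ne0_left fw
    obtain ⟨s, p, hp, -, hcard, hcan⟩ := ih (S.erase w).card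
      (by rw [← hn]; exact Finset.card_erase_lt_of_mem hw) (S.erase w) rfl gw
    have hS0 := X.nz S hS
    have hins : insert w (S.erase w) = S := Finset.insert_erase hw
    have hi := X.i1 (S.erase w) w p (Finset.notMem_erase w S) hw0 (by rw [hins]; exact hS0) hp
    rw [hins] at hi
    let s' : V → Bool := fun v => if v = w then decide (0 < X.τ S * X.τ (S.erase w)) else s v
    have hcan' : ∀ v ∈ S, (∃ y ∈ S, X.adj v y) → (s' v = true ↔ 0 < X.τ S * X.τ (S.erase v)) := by
      intro v hv ⟨y', hy', hvy'⟩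
      by_cases hvw : v = w
      · subst hvw
        simp [s']
      · have hNI : ∃ z ∈ S, z ≠ w ∧ X.adj v z := by
          by_cases h : y' = w
          · subst h
            exact hnb v hv (X.adj_symm _ _ hvy')
          · exact ⟨y', hy', h, hvy'⟩
        obtain ⟨z, hz, hzw, hvz⟩ := hNI
        have h1 := hcan v (Finset.mem_erase.2 ⟨hvw, hv⟩) ⟨z, Finset.mem_erase.2 ⟨hzw, hz⟩, hvz⟩
        have hst := X.stable hS hv hw hz hy hvw hzw hvz hwy
        have hs' : s' v = s v := by simp [s', hvw]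
        obtain ⟨-, -, -, fv⟩ := X.h2 S v z hS hv hz hvz
        obtain ⟨-, -, -, fv'⟩ := X.h2 (S.erase w) v z gw (Finset.mem_erase.2 ⟨hvw, hv⟩)
          (Finset.mem_erase.2 ⟨hzw, hz⟩) hvz
        rw [hs', h1, pos_iff' hw0 (ne0_left fv'), pos_iff' hS0 (ne0_left fv)]
        exact hst
    refine ⟨s', _, hi, proper_of s' hcan', ?_, hcan'⟩
    have e1 : S.filter (fun v => s' v = true) =
        (if 0 < X.τ S * X.τ (S.erase w) then {w} else ∅) ∪
          (S.erase w).filter (fun v => s v = true) := by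
      ext x
      simp only [Finset.mem_filter, Finset.mem_union, Finset.mem_erase]
      by_cases hx : x = w
      · subst hx
        by_cases h0 : 0 < X.τ S * X.τ (S.erase x)
        · simp [s', h0, hw]
        · simp [s', h0, hw]
      · by_cases h0 : 0 < X.τ S * X.τ (S.erase w)
        · simp [s', hx, h0]
        · simp [s', hx, h0]
    rw [e1, Finset.card_union_of_disjoint, hcard]
    · by_cases h0 : 0 < X.τ S * X.τ (S.erase w)
      · simp [h0, add_comm]
      · simp [h0]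
    · by_cases h0 : 0 < X.τ S * X.τ (S.erase w)
      · simp [h0]
      · simp [h0]
  by_cases c2 : ∃ u ∈ S, ∃ v ∈ S, X.adj u v
  · obtain ⟨u, hu, v, hv, huv⟩ := c2
    push Not at c1
    -- every component is a single edge
    have leaf : ∀ w ∈ S, ∀ y ∈ S, X.adj w y → ∀ z ∈ S, X.adj w z → z = y := by
      intro w hw y hy hwy z hz hwz
      obtain ⟨a, ha, hwa, hla⟩ := c1 w hw ⟨y, hy, hwy⟩
      -- `a` is a leaf attached to `w`
      obtain ⟨b, hb, hab, hlb⟩ := c1 a ha ⟨w, hw, X.adj_symm _ _ hwa⟩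
      have hbw : b = w := by
        by_contra h
        exact hla b hb h hab
      subst hbw
      have h1 : ∀ z ∈ S, X.adj b z → z = a := by
        intro z hz hbz
        by_contra h
        exact hlb z hz h hbz
      rw [h1 z hz hwz, h1 y hy hwy]
    have huv' : u ≠ v := by rintro rfl; exact X.adj_irr _ huv
    obtain ⟨gu, guv, f1, f2⟩ := X.h2 S u v hS hu hv huv
    obtain ⟨gv, -, -, -⟩ := X.h2 S v u hS hv hu (X.adj_symm _ _ huv)
    have hS0 := X.nz S hS
    have hu0 := X.nz _ gu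
    have hv0 := X.nz _ gv
    have huv0 := X.nz _ guv
    set T := (S.erase u).erase v with hT
    have hcT : T.card < S.card := by
      have h1 := Finset.card_erase_lt_of_mem (Finset.mem_erase.2 ⟨huv'.symm, hv⟩ : v ∈ S.erase u)
      have h2 := Finset.card_erase_lt_of_mem hu
      exact h1.trans h2
    obtain ⟨s, p, hp, -, hcard, hcan⟩ := ih T.card (by rw [← hn]; exact hcT) T rfl guv
    have hi1 := X.i1 T v p (by simp [hT]) huv0
      (by rw [hT, Finset.insert_erase (Finset.mem_erase.2 ⟨huv'.symm, hv⟩)]; exact hu0) hp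
    rw [hT, Finset.insert_erase (Finset.mem_erase.2 ⟨huv'.symm, hv⟩)] at hi1
    have hi2 := X.i1 (S.erase u) u _ (Finset.notMem_erase u S) hu0
      (by rw [Finset.insert_erase hu]; exact hS0) hi1
    rw [Finset.insert_erase hu] at hi2
    have hsum : (p + (if 0 < X.τ (S.erase u) * X.τ ((S.erase u).erase v) then 1 else 0)) +
        (if 0 < X.τ S * X.τ (S.erase u) then 1 else 0) = p + 1 := by
      rw [neg_iff' huv0 hS0] at f1
      by_cases h1 : 0 < X.τ (S.erase u) * X.τ ((S.erase u).erase v)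
      · have h1' := (pos_iff' hu0 huv0).1 h1
        have h2 : ¬ 0 < X.τ S * X.τ (S.erase u) := by
          rw [pos_iff' hS0 hu0]
          exact fun h => (logic5 f1).1 ⟨h, h1'⟩
        rw [if_pos h1, if_neg h2]
      · have h1' : ¬ ((0 < X.τ (S.erase u)) ↔ (0 < X.τ ((S.erase u).erase v))) := by
          rw [← pos_iff' hu0 huv0]; exact h1
        have h2 : 0 < X.τ S * X.τ (S.erase u) := by
          rw [pos_iff' hS0 hu0]
          exact (logic5 f1).2.resolve_right h1'
        rw [if_neg h1, if_pos h2]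
    rw [hsum] at hi2
    let s' : V → Bool := fun x => if x = u then decide (0 < X.τ S * X.τ (S.erase u)) else
      if x = v then decide (0 < X.τ S * X.τ (S.erase v)) else s x
    have hcan' : ∀ x ∈ S, (∃ y ∈ S, X.adj x y) → (s' x = true ↔ 0 < X.τ S * X.τ (S.erase x)) := by
      intro x hx ⟨y, hy, hxy⟩
      by_cases hxu : x = u
      · subst hxu; simp [s']
      by_cases hxv : x = v
      · subst hxv; simp [s', huv'.symm]
      have hs' : s' x = s x := by simp [s', hxu, hxv]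
      have hyu : y ≠ u := by
        rintro rfl
        exact hxv (leaf y hu v hv huv x hx (X.adj_symm _ _ hxy))
      have hyv : y ≠ v := by
        rintro rfl
        exact hxu (leaf y hv u hu (X.adj_symm _ _ huv) x hx (X.adj_symm _ _ hxy))
      have hxT : x ∈ T := by simp [hT, hxu, hxv, hx]
      have hyT : y ∈ T := by simp [hT, hyu, hyv, hy]
      have h1 := hcan x hxT ⟨y, hyT, hxy⟩
      obtain ⟨gx, -, -, -⟩ := X.h2 S x y hS hx hy hxy
      obtain ⟨gTx, -, -, -⟩ := X.h2 T x y guv hxT hyT hxy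
      obtain ⟨-, -, f3, -⟩ := X.h2 (S.erase x) u v gx (by simp [Ne.symm hxu, hu])
        (by simp [Ne.symm hxv, hv]) huv
      have e1 : ((S.erase x).erase u).erase v = T.erase x := by
        ext a; simp only [hT, Finset.mem_erase]
        exact ⟨fun h => ⟨h.2.2.1, h.1, h.2.1, h.2.2.2⟩, fun h => ⟨h.2.1, h.2.2.1, h.1, h.2.2.2⟩⟩
      rw [e1] at f3
      have hx0 := X.nz _ gx
      have hTx0 := X.nz _ gTx
      rw [hs', h1, pos_iff' huv0 hTx0, pos_iff' hS0 hx0]
      rw [neg_iff' hTx0 hx0] at f3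
      rw [neg_iff' huv0 hS0] at f1
      exact logic6 f1 f3
    refine ⟨s', _, hi2, proper_of s' hcan', ?_, hcan'⟩
    have hprop := proper_of s' hcan' u hu v hv huv
    have e1 : S.filter (fun x => s' x = true) =
        (if s' u = true then {u} else {v}) ∪ T.filter (fun x => s x = true) := by
      ext x
      simp only [Finset.mem_filter, Finset.mem_union]
      by_cases hxu : x = u
      · subst hxu
        have hxT : x ∉ T := by simp [hT]
        cases hsu : s' x
        · simp [hu, hxT, huv']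
        · simp [hu, hxT]
      · by_cases hxv : x = v
        · subst hxv
          have hxT : x ∉ T := by simp [hT]
          cases hsu : s' u
          · have : s' x = true := by
              cases hsx : s' x
              · exact absurd (hsu.trans hsx.symm) hprop
              · rfl
            simp [this, hv, hxT]
          · have : s' x = false := by
              cases hsx : s' x
              · rfl
              · exact absurd (hsu.trans hsx.symm) hprop
            simp [this, hxT, hxu]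
        · have hs' : s' x = s x := by simp [s', hxu, hxv]
          have hxT : x ∈ T ↔ x ∈ S := by simp [hT, hxu, hxv]
          rw [hs', hxT]
          by_cases hsu : s' u = true
          · simp [hsu, hxu]
          · simp [hsu, hxv]
    rw [e1, Finset.card_union_of_disjoint, hcard]
    · split_ifs
      · simp [add_comm]
      · simp [add_comm]
    · split_ifs
      · simp [hT]
      · simp [hT]
  · push Not at c2
    obtain ⟨p, hple, hp⟩ := X.i0 S hS
    obtain ⟨P, hPS, hPc⟩ := Finset.exists_subset_card_eq hple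
    refine ⟨fun v => decide (v ∈ P), p, hp, ?_, ?_, ?_⟩
    · intro u hu v hv huv
      exact absurd huv (c2 u hu v hv)
    · rw [← hPc]
      congr 1
      ext x
      simp only [Finset.mem_filter, decide_eq_true_eq]
      exact ⟨fun h => h.2, fun h => ⟨hPS h, h⟩⟩
    · rintro v hv ⟨y, hy, hvy⟩
      exact absurd hvy (c2 v hv y hy)

end Sys

end Pool.Agent.R54.IN
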