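import Pool.Agent.R54.IN.Dets
import Pool.Agent.R54.IN.Signs

/-!
# Generic partial matrices all of whose completions are nonsingular
-/

set_option autoImplicit false

open scoped Matrix Topology

namespace Pool.Agent.R54.IN

variable {V : Type*} [Fintype V] [DecidableEq V]

/-- symmetric matrices whose known entries are `ε`-close to those of `A₀` -/
def Near (K : V → V → Prop) (A₀ : Matrix V V ℝ) (ε : ℝ) (A : Matrix V V ℝ) : Prop :=
  A.IsSymm ∧ ∀ i j, K i j → |A i j - A₀ i j| < ε

def Good (K : V → V → Prop) (A₀ : Matrix V V ℝ) (ε : ℝ) (S : Finset V) : Prop :=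
  ∀ A, Near K A₀ ε A → D A S ≠ 0

variable {K : V → V → Prop} {A₀ : Matrix V V ℝ} {ε : ℝ}

omit [Fintype V] [DecidableEq V] in
theorem near_conv {A B : Matrix V V ℝ} (hA : Near K A₀ ε A) (hB : Near K A₀ ε B) {t : ℝ}
    (ht0 : 0 ≤ t) (ht1 : t ≤ 1) : Near K A₀ ε ((1 - t) • A + t • B) := by
  refine ⟨?_, fun i j h => ?_⟩
  · have h1 := hA.1
    have h2 := hB.1
    ext i j
    simp only [Matrix.transpose_apply, Matrix.add_apply, Matrix.smul_apply]
    rw [h1.apply i j, h2.apply i j]
  · have h1 := hA.2 i j h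
    have h2 := hB.2 i j h
    simp only [Matrix.add_apply, Matrix.smul_apply, smul_eq_mul]
    have e : (1 - t) * A i j + t * B i j - A₀ i j =
        (1 - t) * (A i j - A₀ i j) + t * (B i j - A₀ i j) := by ring
    rw [e, abs_lt]
    rw [abs_lt] at h1 h2
    rcases eq_or_lt_of_le ht0 with h0 | h0
    · rw [← h0]
      simpa using h1
    · have k1 : 0 ≤ (1 - t) * (ε - (A i j - A₀ i j)) :=
        mul_nonneg (by linarith) (by linarith [h1.2])
      have k2 : 0 ≤ (1 - t) * (ε + (A i j - A₀ i j)) :=
        mul_nonneg (by linarith) (by linarith [h1.1])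
      have k3 : 0 < t * (ε - (B i j - A₀ i j)) := mul_pos h0 (by linarith [h2.2])
      have k4 : 0 < t * (ε + (B i j - A₀ i j)) := mul_pos h0 (by linarith [h2.1])
      constructor <;> nlinarith

omit [Fintype V] in
theorem sign_const {S : Finset V} (hS : Good K A₀ ε S) {A B : Matrix V V ℝ}
    (hA : Near K A₀ ε A) (hB : Near K A₀ ε B) : 0 < D A S * D B S := by
  by_contra hcon
  push Not at hcon
  have hA0 := hS A hA
  have hB0 := hS B hB
  let f : ℝ → ℝ := fun t => D ((1 - t) • A + t • B) S
  have hf : Continuous f := by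
    refine Continuous.matrix_det ?_
    refine continuous_matrix fun i j => ?_
    simp only [Matrix.submatrix_apply, Matrix.add_apply, Matrix.smul_apply, smul_eq_mul]
    fun_prop
  have h0 : f 0 = D A S := by simp [f]
  have h1 : f 1 = D B S := by simp [f]
  have hmem : (0 : ℝ) ∈ Set.uIcc (f 0) (f 1) := by
    rw [h0, h1, Set.mem_uIcc]
    rcases lt_or_gt_of_ne hA0 with h | h
    · left; refine ⟨h.le, ?_⟩
      by_contra hc
      push Not at hc
      nlinarith
    · right; refine ⟨?_, h.le⟩
      by_contra hc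
      push Not at hc
      nlinarith
  obtain ⟨t, ht, hft⟩ := intermediate_value_uIcc (hf.continuousOn) hmem
  rw [Set.uIcc_of_le zero_le_one] at ht
  exact hS _ (near_conv hA hB ht.1 ht.2) hft

omit [Fintype V] in
theorem affine (B : Matrix V V ℝ) (S : Finset V) (i : V) :
    ∃ c₀ c₁ : ℝ, ∀ s : ℝ, D (B + s • Matrix.single i i 1) S = c₀ + s * c₁ := by
  by_cases hi : i ∈ S
  · set B' : Matrix S S ℝ := B.submatrix Subtype.val Subtype.val with hB'
    refine ⟨B'.det, (B'.updateRow ⟨i, hi⟩ (Pi.single ⟨i, hi⟩ 1)).det, fun s => ?_⟩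
    have h1 : (B + s • Matrix.single i i 1).submatrix (Subtype.val : S → V) Subtype.val =
        B'.updateRow ⟨i, hi⟩ (B' ⟨i, hi⟩ + s • Pi.single ⟨i, hi⟩ 1) := by
      ext a b
      by_cases ha : a = ⟨i, hi⟩
      · subst ha
        by_cases hb : b = ⟨i, hi⟩
        · subst hb
          simp [hB']
        · have hb' : i ≠ b.1 := fun h => hb (Subtype.ext h.symm)
          simp [hB', hb, hb']
      · have ha' : i ≠ a.1 := fun h => ha (Subtype.ext h.symm)
        simp [hB', Matrix.updateRow_ne ha, ha']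
    unfold D
    rw [h1, Matrix.det_updateRow_add, Matrix.det_updateRow_smul, Matrix.updateRow_eq_self]
  · refine ⟨D B S, 0, fun s => ?_⟩
    rw [mul_zero, add_zero]
    refine D_congr fun a ha b hb => ?_
    have ha' : i ≠ a := fun h => hi (h ▸ ha)
    simp [ha']

theorem exists_delta {A : Matrix V V ℝ} (hA : Near K A₀ ε A) :
    ∃ δ > 0, ∀ d : V → ℝ, (∀ i, |d i| < δ) → Near K A₀ ε (A + Matrix.diagonal d) := by
  have h1 : ∀ i j, ∀ᶠ δ in 𝓝[>] (0 : ℝ), K i j → |A i j - A₀ i j| + δ < ε := by
    intro i j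
    by_cases hK : K i j
    · have h2 : (0 : ℝ) < ε - |A i j - A₀ i j| := sub_pos.2 (hA.2 i j hK)
      filter_upwards [nhdsWithin_le_nhds (Iio_mem_nhds h2)] with δ hδ _
      have : δ < ε - |A i j - A₀ i j| := hδ
      linarith
    · exact Filter.Eventually.of_forall fun δ h => absurd h hK
  have h2 : ∀ᶠ δ in 𝓝[>] (0 : ℝ), ∀ i j, K i j → |A i j - A₀ i j| + δ < ε :=
    Filter.eventually_all.2 fun i => Filter.eventually_all.2 fun j => h1 i j
  obtain ⟨δ, hδ, hδ0⟩ := (h2.and self_mem_nhdsWithin).exists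
  refine ⟨δ, hδ0, fun d hd => ⟨?_, fun i j hK => ?_⟩⟩
  · ext i j
    simp only [Matrix.transpose_apply, Matrix.add_apply, Matrix.diagonal_apply]
    rw [hA.1.apply i j]
    by_cases h : i = j
    · subst h; rfl
    · simp [h, Ne.symm h]
  · have h3 := hδ i j hK
    have h4 : |(Matrix.diagonal d) i j| < δ := by
      by_cases h : i = j
      · subst h; simpa using hd i
      · simpa [h] using hδ0
    have e : (A + Matrix.diagonal d) i j - A₀ i j = (A i j - A₀ i j) + (Matrix.diagonal d) i j := by
      simp only [Matrix.add_apply]; ring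
    rw [e]
    calc _ ≤ |A i j - A₀ i j| + |(Matrix.diagonal d) i j| := abs_add_le _ _
      _ < |A i j - A₀ i j| + δ := by linarith
      _ < ε := h3

theorem interior {R : Finset V} {κ : ℝ} (hκ : κ ≠ 0)
    (hle : ∀ B, Near K A₀ ε B → κ * D B R ≤ 0) : Good K A₀ ε R := by
  intro A hA h0
  obtain ⟨δ, hδ, hd⟩ := exists_delta hA
  have key : ∀ T : Finset V, ∀ d : V → ℝ, (∀ i, i ∉ T → d i = 0) → (∀ i, |d i| < δ) →
      D (A + Matrix.diagonal d) R = 0 := by
    intro T
    induction T using Finset.induction_on with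
    | empty =>
      intro d hd0 _
      have : d = 0 := funext fun i => hd0 i (by simp)
      rw [this]
      simpa using h0
    | insert i T hi ih =>
      intro d hd0 hdδ
      set d' : V → ℝ := Function.update d i 0 with hd'
      have h1 : D (A + Matrix.diagonal d') R = 0 := by
        refine ih d' ?_ ?_
        · intro j hj
          by_cases hji : j = i
          · subst hji; simp [hd']
          · simp only [hd', Function.update_of_ne hji]
            exact hd0 j (by simp [hji, hj])
        · intro j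
          by_cases hji : j = i
          · subst hji; simpa [hd'] using hδ
          · simp only [hd', Function.update_of_ne hji]
            exact hdδ j
      obtain ⟨c₀, c₁, hc⟩ := affine (A + Matrix.diagonal d') R i
      have hupd : ∀ s : ℝ, A + Matrix.diagonal (Function.update d i s) =
          A + Matrix.diagonal d' + s • Matrix.single i i 1 := by
        intro s
        rw [add_assoc]
        congr 1
        ext a b
        simp only [Matrix.diagonal_apply, Matrix.add_apply, Matrix.smul_apply, Matrix.single_apply,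
          smul_eq_mul, hd']
        by_cases hab : a = b
        · subst hab
          by_cases hai : a = i
          · subst hai; simp
          · simp [hai, Ne.symm hai]
        · have : ¬ (i = a ∧ i = b) := fun h => hab (h.1.symm.trans h.2)
          simp [hab, this]
      have hc0 : c₀ = 0 := by
        have := hc 0
        simp only [zero_smul, add_zero, zero_mul] at this
        rw [← this]; exact h1
      have hs : ∀ s : ℝ, |s| < δ → κ * (s * c₁) ≤ 0 := by
        intro s hs
        have h2 := hle (A + Matrix.diagonal (Function.update d i s)) (hd _ (by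
          intro j
          by_cases hji : j = i
          · subst hji; simpa using hs
          · simpa [Function.update_of_ne hji] using hdδ j))
        rw [hupd, hc, hc0, zero_add] at h2
        exact h2
      have hc1 : c₁ = 0 := by
        have h2 := hs (δ / 2) (by rw [abs_of_pos (by linarith)]; linarith)
        have h3 := hs (-(δ / 2)) (by rw [abs_neg, abs_of_pos (by linarith)]; linarith)
        have h4 : κ * c₁ * (δ / 2) = 0 := by nlinarith
        have h5 : κ * c₁ = 0 := by
          rcases mul_eq_zero.1 h4 with h | h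
          · exact h
          · linarith
        exact (mul_eq_zero.1 h5).resolve_left hκ
      have h6 := hupd (d i)
      rw [Function.update_eq_self] at h6
      rw [h6, hc, hc0, hc1]; ring
  -- now all small multiples of the identity
  set Q : Matrix R R ℝ := A.submatrix Subtype.val Subtype.val with hQ
  have hroot : ∀ t : ℝ, 0 < t → t < δ → ((-Q).charpoly).IsRoot t := by
    intro t ht0 ht1
    have h1 := key Finset.univ (fun _ => t) (fun i hi => absurd (Finset.mem_univ i) hi)
      (fun i => by rw [abs_of_pos ht0]; exact ht1)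
    rw [Polynomial.IsRoot.def, Matrix.eval_charpoly]
    unfold D at h1
    rw [← h1]
    congr 1
    ext a b
    simp only [Matrix.scalar_apply, Matrix.sub_apply, Matrix.neg_apply, Matrix.submatrix_apply,
      Matrix.add_apply, Matrix.diagonal_apply, hQ]
    by_cases hab : a = b
    · subst hab; simp [add_comm]
    · have : (a : V) ≠ b := fun h => hab (Subtype.ext h)
      simp [hab, this]
  have hinf : Set.Infinite {t : ℝ | ((-Q).charpoly).IsRoot t} := by
    refine Set.Infinite.mono (s := Set.Ioo 0 δ) (fun t ht => hroot t ht.1 ht.2) ?_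
    exact Set.Ioo_infinite hδ
  exact (Matrix.charpoly_monic (-Q)).ne_zero (Polynomial.eq_zero_of_infinite_isRoot _ hinf)

omit [Fintype V] in
theorem near_add (hKs : ∀ i j, K i j → K j i) {B : Matrix V V ℝ} (hB : Near K A₀ ε B) {u v : V}
    (hK : ¬ K u v) (t : ℝ) :
    Near K A₀ ε (B + t • (Matrix.single u v 1 + Matrix.single v u 1)) := by
  refine ⟨?_, fun i j h => ?_⟩
  · ext i j
    simp only [Matrix.transpose_apply, Matrix.add_apply, Matrix.smul_apply, Matrix.single_apply,
      smul_eq_mul]
    rw [hB.1.apply i j]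
    have e1 : (u = j ∧ v = i) ↔ (v = i ∧ u = j) := and_comm
    have e2 : (v = j ∧ u = i) ↔ (u = i ∧ v = j) := and_comm
    simp only [e1, e2]
    ring
  · have h1 : ¬ (u = i ∧ v = j) := by rintro ⟨rfl, rfl⟩; exact hK h
    have h2 : ¬ (v = i ∧ u = j) := by rintro ⟨rfl, rfl⟩; exact hK (hKs _ _ h)
    simp only [Matrix.add_apply, Matrix.smul_apply, Matrix.single_apply, smul_eq_mul, if_neg h1,
      if_neg h2]
    simpa using hB.2 i j h

theorem pair_step (hKs : ∀ i j, K i j → K j i) {S : Finset V} (hS : Good K A₀ ε S) {u v : V}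
    (hu : u ∈ S) (hv : v ∈ S) (huv : u ≠ v) (hK : ¬ K u v) {B : Matrix V V ℝ}
    (hB : Near K A₀ ε B) (h0 : D B ((S.erase u).erase v) ≠ 0) :
    D B ((S.erase u).erase v) * D B S < 0 ∧ D B (S.erase u) * D B (S.erase v) < 0 := by
  set R := (S.erase u).erase v with hR
  have e1 : insert u R = S.erase v := by
    rw [hR, Finset.erase_right_comm]
    exact Finset.insert_erase (Finset.mem_erase.2 ⟨huv, hu⟩)
  have e2 : insert v R = S.erase u := Finset.insert_erase (Finset.mem_erase.2 ⟨huv.symm, hv⟩)
  have e3 : insert u (insert v R) = S := by rw [e2]; exact Finset.insert_erase hu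
  obtain ⟨ρ, hρ⟩ := schur2 B hB.1 R u v (by simp [hR]) (by simp [hR]) huv h0
  rw [e3] at hρ
  rw [e1, e2] at hρ
  have hα : D B (S.erase v) * D B (S.erase u) < 0 := by
    by_contra hcon
    push Not at hcon
    have h1 := hρ ((Real.sqrt (D B (S.erase v) * D B (S.erase u)) - ρ) / D B R)
    have h2 : (ρ + (Real.sqrt (D B (S.erase v) * D B (S.erase u)) - ρ) / D B R * D B R) ^ 2 =
        D B (S.erase v) * D B (S.erase u) := by
      rw [div_mul_cancel₀ _ h0]
      have : ρ + (Real.sqrt (D B (S.erase v) * D B (S.erase u)) - ρ) =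
          Real.sqrt (D B (S.erase v) * D B (S.erase u)) := by ring
      rw [this, Real.sq_sqrt hcon]
    rw [h2, sub_self] at h1
    rcases mul_eq_zero.1 h1 with h | h
    · exact hS _ (near_add hKs hB hK _) h
    · exact h0 h
  refine ⟨?_, by rw [mul_comm]; exact hα⟩
  have h3 := hρ 0
  simp only [zero_smul, add_zero, zero_mul] at h3
  rw [mul_comm, h3]
  nlinarith [sq_nonneg ρ]

theorem good_pair (hKs : ∀ i j, K i j → K j i) {S : Finset V} (hS : Good K A₀ ε S) {u v : V}
    (hu : u ∈ S) (hv : v ∈ S) (huv : u ≠ v) (hK : ¬ K u v) :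
    Good K A₀ ε ((S.erase u).erase v) := by
  by_cases hne : ∃ A, Near K A₀ ε A
  · obtain ⟨A, hA⟩ := hne
    refine interior (κ := D A S) (hS A hA) fun B hB => ?_
    by_cases h0 : D B ((S.erase u).erase v) = 0
    · rw [h0, mul_zero]
    · have h1 := (pair_step hKs hS hu hv huv hK hB h0).1
      have h2 := sign_const hS hA hB
      by_contra hcon
      push Not at hcon
      have h3 : 0 < (D A S * D B ((S.erase u).erase v)) * (D A S * D B S) := mul_pos hcon h2
      have h4 : (D A S * D B ((S.erase u).erase v)) * (D A S * D B S) =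
          (D A S) ^ 2 * (D B ((S.erase u).erase v) * D B S) := by ring
      rw [h4] at h3
      nlinarith [sq_nonneg (D A S)]
  · intro A hA
    exact absurd ⟨A, hA⟩ hne

/-! ### Index relative to a set of coordinates -/

/-- complementary definite subspaces supported on `S`, the positive one of dimension `p` -/
def Ind (A : Matrix V V ℝ) (S : Finset V) (p : ℕ) : Prop :=
  ∃ P N : Submodule ℝ (V → ℝ), (∀ x ∈ P, ∀ i, i ∉ S → x i = 0) ∧ (∀ x ∈ N, ∀ i, i ∉ S → x i = 0) ∧
    (∀ x ∈ P, x ≠ 0 → 0 < x ⬝ᵥ (A *ᵥ x)) ∧ (∀ x ∈ N, x ≠ 0 → x ⬝ᵥ (A *ᵥ x) < 0) ∧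
    Module.finrank ℝ P = p ∧ Module.finrank ℝ P + Module.finrank ℝ N = S.card

theorem exists_ind {A : Matrix V V ℝ} (hA : A.IsSymm) {S : Finset V} (hS : D A S ≠ 0) :
    ∃ p, p ≤ S.card ∧ Ind A S p := by
  set Q : Matrix S S ℝ := A.submatrix Subtype.val Subtype.val with hQ
  have hQh : Q.IsHermitian := by
    ext i j
    simp only [Matrix.conjTranspose_apply, hQ, Matrix.submatrix_apply, star_trivial]
    exact hA.apply i.1 j.1
  obtain ⟨P, N, hP, hN, hPN⟩ := exists_spaces hQh hS
  let E : (S → ℝ) →ₗ[ℝ] (V → ℝ) :=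
    { toFun := fun z v => if h : v ∈ S then z ⟨v, h⟩ else 0
      map_add' := by
        intro z w; funext v; by_cases h : v ∈ S <;> simp [h]
      map_smul' := by
        intro c z; funext v; by_cases h : v ∈ S <;> simp [h] }
  have hEinj : Function.Injective E := by
    intro z w h
    funext i
    have := congrFun h i.1
    simpa [E, i.2] using this
  have hform : ∀ z, (E z) ⬝ᵥ (A *ᵥ (E z)) = z ⬝ᵥ (Q *ᵥ z) := by
    intro z
    have h1 : ∀ i : V, (A *ᵥ (E z)) i = ∑ j : S, A i j * z j := by
      intro i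
      rw [← sum_dite_mem S (fun j : S => A i j * z j)]
      refine Finset.sum_congr rfl fun j _ => ?_
      by_cases h : j ∈ S <;> simp [E, h]
    have h2 : (E z) ⬝ᵥ (A *ᵥ (E z)) = ∑ i : S, z i * (A *ᵥ (E z)) i := by
      rw [← sum_dite_mem S (fun i : S => z i * (A *ᵥ (E z)) i)]
      refine Finset.sum_congr rfl fun j _ => ?_
      by_cases h : j ∈ S <;> simp [E, h]
    rw [h2]
    refine Finset.sum_congr rfl fun i _ => ?_
    rw [h1]
    rfl
  have hfr : ∀ W : Submodule ℝ (S → ℝ), Module.finrank ℝ (W.map E) = Module.finrank ℝ W := by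
    intro W
    exact (LinearEquiv.finrank_eq (Submodule.equivMapOfInjective E hEinj W)).symm
  have hsupp : ∀ W : Submodule ℝ (S → ℝ), ∀ x ∈ W.map E, ∀ i, i ∉ S → x i = 0 := by
    rintro W x ⟨z, -, rfl⟩ i hi
    simp [E, hi]
  refine ⟨Module.finrank ℝ P, ?_, P.map E, N.map E, hsupp P, hsupp N, ?_, ?_, hfr P, ?_⟩
  · rw [Fintype.card_coe] at hPN
    omega
  · rintro x ⟨z, hz, rfl⟩ hx
    rw [hform]
    exact hP z hz fun h => hx (by rw [h, map_zero])
  · rintro x ⟨z, hz, rfl⟩ hx
    rw [hform]
    exact hN z hz fun h => hx (by rw [h, map_zero])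
  · rw [hfr, hfr, hPN, Fintype.card_coe]

theorem finrank_sup_span {P : Submodule ℝ (V → ℝ)} {ξ : V → ℝ} {w : V} (hP : ∀ x ∈ P, x w = 0)
    (hξ : ξ w = 1) : Module.finrank ℝ (P ⊔ Submodule.span ℝ {ξ} : Submodule ℝ (V → ℝ)) =
      Module.finrank ℝ P + 1 := by
  have h1 := Submodule.finrank_sup_add_finrank_inf_eq P (Submodule.span ℝ {ξ})
  have h2 : P ⊓ Submodule.span ℝ {ξ} = ⊥ := by
    rw [Submodule.eq_bot_iff]
    rintro x ⟨hx1, hx2⟩
    obtain ⟨c, rfl⟩ := Submodule.mem_span_singleton.1 hx2
    have := hP _ hx1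
    simp only [Pi.smul_apply, hξ, smul_eq_mul, mul_one] at this
    rw [this, zero_smul]
  have hξ0 : ξ ≠ 0 := by rintro rfl; simp at hξ
  rw [h2, finrank_bot, add_zero, finrank_span_singleton hξ0] at h1
  exact h1

theorem ind_step {A : Matrix V V ℝ} (hA : A.IsSymm) {T : Finset V} {w : V} {p : ℕ} (hw : w ∉ T)
    (hT : D A T ≠ 0) (hT' : D A (insert w T) ≠ 0) (h : Ind A T p) :
    Ind A (insert w T) (p + if 0 < D A (insert w T) * D A T then 1 else 0) := by
  obtain ⟨P, N, hPs, hNs, hP, hN, hp, hPN⟩ := h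
  obtain ⟨ξ, hξw, hξs, hξT, hD⟩ := schur1 A T w hw hT
  set s := (A *ᵥ ξ) w with hs
  have hs0 : s ≠ 0 := by
    intro h; rw [h, mul_zero] at hD; exact hT' hD
  have horth : ∀ y : V → ℝ, (∀ i, i ∉ T → y i = 0) → y ⬝ᵥ (A *ᵥ ξ) = 0 := by
    intro y hy
    refine Finset.sum_eq_zero fun i _ => ?_
    by_cases hi : i ∈ T
    · rw [hξT i hi, mul_zero]
    · rw [hy i hi, zero_mul]
  have hξξ : ξ ⬝ᵥ (A *ᵥ ξ) = s := by
    have : ξ ⬝ᵥ (A *ᵥ ξ) = ∑ i, ξ i * (A *ᵥ ξ) i := rfl
    rw [this, Finset.sum_eq_single w]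
    · rw [hξw, one_mul]
    · intro i _ hiw
      by_cases hi : i ∈ T
      · rw [hξT i hi, mul_zero]
      · rw [hξs i (by simp [hiw, hi]), zero_mul]
    · intro h; exact absurd (Finset.mem_univ _) h
  have hform : ∀ (y : V → ℝ) (c : ℝ), (∀ i, i ∉ T → y i = 0) →
      (y + c • ξ) ⬝ᵥ (A *ᵥ (y + c • ξ)) = y ⬝ᵥ (A *ᵥ y) + c ^ 2 * s := by
    intro y c hy
    have h1 := horth y hy
    have h2 : ξ ⬝ᵥ (A *ᵥ y) = 0 := by
      rw [Matrix.dotProduct_mulVec, ← Matrix.mulVec_transpose, hA, dotProduct_comm]
      exact h1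
    rw [Matrix.mulVec_add, Matrix.mulVec_smul]
    simp only [add_dotProduct, dotProduct_add, smul_dotProduct, dotProduct_smul, smul_eq_mul, h1,
      h2, hξξ]
    ring
  have hsupp : ∀ W : Submodule ℝ (V → ℝ), (∀ x ∈ W, ∀ i, i ∉ T → x i = 0) →
      ∀ x ∈ W ⊔ Submodule.span ℝ {ξ}, ∀ i, i ∉ insert w T → x i = 0 := by
    intro W hW x hx i hi
    obtain ⟨y, hy, z, hz, rfl⟩ := Submodule.mem_sup.1 hx
    obtain ⟨c, rfl⟩ := Submodule.mem_span_singleton.1 hz
    have hi' : i ∉ T := fun h => hi (Finset.mem_insert_of_mem h)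
    simp [hW y hy i hi', hξs i hi]
  have hsupp' : ∀ W : Submodule ℝ (V → ℝ), (∀ x ∈ W, ∀ i, i ∉ T → x i = 0) →
      ∀ x ∈ W, ∀ i, i ∉ insert w T → x i = 0 := by
    intro W hW x hx i hi
    exact hW x hx i fun h => hi (Finset.mem_insert_of_mem h)
  have hprod : D A (insert w T) * D A T = (D A T) ^ 2 * s := by rw [hD]; ring
  have hT2 : 0 < (D A T) ^ 2 := by positivity
  rcases lt_or_gt_of_ne hs0 with hneg | hpos
  · have hc : ¬ 0 < D A (insert w T) * D A T := by
      rw [hprod]; exact not_lt.2 (mul_nonpos_of_nonneg_of_nonpos hT2.le hneg.le)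
    rw [if_neg hc, add_zero]
    refine ⟨P, N ⊔ Submodule.span ℝ {ξ}, hsupp' P hPs, hsupp N hNs, hP, ?_, hp, ?_⟩
    · intro x hx hx0
      obtain ⟨y, hy, z, hz, rfl⟩ := Submodule.mem_sup.1 hx
      obtain ⟨c, rfl⟩ := Submodule.mem_span_singleton.1 hz
      rw [hform y c (hNs y hy)]
      by_cases hy0 : y = 0
      · subst hy0
        have hc0 : c ≠ 0 := by rintro rfl; simp at hx0
        have : 0 < c ^ 2 := by positivity
        simp only [Matrix.mulVec_zero, dotProduct_zero, zero_add]
        exact mul_neg_of_pos_of_neg this hneg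
      · have := hN y hy hy0
        nlinarith [sq_nonneg c]
    · rw [finrank_sup_span (fun x hx => hNs x hx w hw) hξw, Finset.card_insert_of_notMem hw]
      omega
  · have hc : 0 < D A (insert w T) * D A T := by
      rw [hprod]; exact mul_pos hT2 hpos
    rw [if_pos hc]
    refine ⟨P ⊔ Submodule.span ℝ {ξ}, N, hsupp P hPs, hsupp' N hNs, ?_, hN, ?_, ?_⟩
    · intro x hx hx0
      obtain ⟨y, hy, z, hz, rfl⟩ := Submodule.mem_sup.1 hx
      obtain ⟨c, rfl⟩ := Submodule.mem_span_singleton.1 hz
      rw [hform y c (hPs y hy)]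
      by_cases hy0 : y = 0
      · subst hy0
        have hc0 : c ≠ 0 := by rintro rfl; simp at hx0
        have : 0 < c ^ 2 := by positivity
        simp only [Matrix.mulVec_zero, dotProduct_zero, zero_add]
        exact mul_pos this hpos
      · have := hP y hy hy0
        nlinarith [sq_nonneg c]
    · rw [finrank_sup_span (fun x hx => hPs x hx w hw) hξw, hp]
    · rw [finrank_sup_span (fun x hx => hPs x hx w hw) hξw, Finset.card_insert_of_notMem hw]
      omega

/-- the abstract system of a matrix all of whose completions are robustly nonsingular -/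
noncomputable def sys (hKs : ∀ i j, K i j → K j i) {A : Matrix V V ℝ} (hA : Near K A₀ ε A) :
    Sys V where
  adj u v := u ≠ v ∧ ¬ K u v
  good := Good K A₀ ε
  τ := D A
  ind := Ind A
  adj_symm u v h := ⟨h.1.symm, fun h' => h.2 (hKs _ _ h')⟩
  adj_irr u h := h.1 rfl
  nz S hS := hS A hA
  h2 S u v hS hu hv huv := by
    have g2 := good_pair hKs hS hu hv huv.1 huv.2
    have f := fun B (hB : Near K A₀ ε B) => pair_step hKs hS hu hv huv.1 huv.2 hB (g2 B hB)
    refine ⟨fun B hB h => ?_, g2, (f A hA).1, (f A hA).2⟩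
    have := (f B hB).2
    rw [h, zero_mul] at this
    exact lt_irrefl _ this
  h3 R y z hy hz hyz hR := by
    obtain ⟨ρ, hρ⟩ := schur2 A hA.1 R y z hy hz hyz hR
    refine ⟨ρ, ?_⟩
    have := hρ 0
    simpa using this
  i0 S hS := exists_ind hA.1 (hS A hA)
  i1 T w p hw hT hT' h := ind_step hA.1 hw hT hT' h

/-- diagonal entries must be known -/
theorem diag_known (hG : Good K A₀ ε Finset.univ) {A : Matrix V V ℝ} (hA : Near K A₀ ε A) (i : V) :
    K i i := by
  by_contra hK
  have hR : ∀ B, Near K A₀ ε B → D B (Finset.univ.erase i) = 0 := by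
    intro B hB
    by_contra h0
    obtain ⟨ξ, hξi, -, hξT, -⟩ := schur1 B (Finset.univ.erase i) i (by simp) h0
    have hN : Near K A₀ ε (B + (-(B *ᵥ ξ) i) • Matrix.single i i 1) := by
      refine ⟨?_, fun a b h => ?_⟩
      · ext a b
        simp only [Matrix.transpose_apply, Matrix.add_apply, Matrix.smul_apply,
          Matrix.single_apply, smul_eq_mul]
        rw [hB.1.apply a b]
        simp only [and_comm]
      · have : ¬ (i = a ∧ i = b) := by rintro ⟨rfl, rfl⟩; exact hK h
        simpa [Matrix.single_apply, this] using hB.2 a b h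
    have h1 := hG _ hN
    rw [D_univ] at h1
    apply h1
    refine Matrix.exists_mulVec_eq_zero_iff.1 ⟨ξ, ?_, ?_⟩
    · rintro rfl; simp at hξi
    · funext a
      rw [Matrix.add_mulVec, Matrix.smul_mulVec]
      simp only [Pi.add_apply, Pi.smul_apply, Pi.zero_apply, smul_eq_mul]
      have h2 : (Matrix.single i i (1 : ℝ) *ᵥ ξ) a = if a = i then 1 else 0 := by
        rw [Matrix.single_mulVec]
        by_cases ha : a = i
        · subst ha; simp [hξi]
        · simp [ha]
      rw [h2]
      by_cases ha : a = i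
      · subst ha; simp
      · rw [hξT a (by simp [ha])]; simp [ha]
  have hI := interior (R := Finset.univ.erase i) (κ := 1) one_ne_zero
    (fun B hB => by rw [hR B hB]; simp)
  exact hI A hA (hR A hA)

/-- Main theorem in matrix form. -/
theorem main (hKs : ∀ i j, K i j → K j i) (hG : Good K A₀ ε Finset.univ) {A : Matrix V V ℝ}
    (hA : Near K A₀ ε A) :
    ∃ s : V → Bool, (∀ u v, ¬ K u v → s u ≠ s v) ∧
      (Finset.univ.filter (fun v => s v = true)).card = posC A ∧
      (Finset.univ.filter (fun v => s v = false)).card = negC A := by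
  obtain ⟨s, p, hp, hprop, hcard, -⟩ := (sys hKs hA).exists_coloring _ Finset.univ rfl hG
  have hAh : A.IsHermitian := by
    ext i j
    simp only [Matrix.conjTranspose_apply, star_trivial]
    exact hA.1.apply i j
  obtain ⟨P, N, -, -, hP, hN, hPp, hPN⟩ := hp
  rw [Finset.card_univ] at hPN
  obtain ⟨h1, h2⟩ := inertia_eq hAh P N hP hN hPN
  refine ⟨s, ?_, ?_, ?_⟩
  · intro u v huv
    have hne : u ≠ v := by
      rintro rfl
      exact huv (diag_known hG hA u)
    exact hprop u (Finset.mem_univ _) v (Finset.mem_univ _) ⟨hne, huv⟩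
  · rw [hcard, h1, hPp]
  · have h3 : (Finset.univ.filter (fun v => s v = true)).card +
        (Finset.univ.filter (fun v => s v = false)).card = Fintype.card V := by
      have := Finset.card_filter_add_card_filter_not (s := (Finset.univ : Finset V))
        (fun v => s v = true)
      rw [Finset.card_univ] at this
      rw [← this]
      simp
    rw [hcard] at h3
    omega

end Pool.Agent.R54.IN
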